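import Pool.Agent.P.MP_56a1cd_gt.Main

/-!
The maximum capacity of horizon data can be strictly smaller than `√(area / 16π)`: this happens for
the metric `(10 + z)⁴ g₀` on the two-sphere, for which the lowest eigenvalue of `-Δ + K` is positive
and an admissible extension exists.
-/

namespace Pool.Agent.Results.MP_56a1cd_gt.Disproof

open Pool.Agent.P.MP_56a1cd_gt

theorem result : ∃ S : SphereMetric,
    (∀ x, S.γ x = (10 + x 2) ^ 4 • (1 : Matrix (Fin 3) (Fin 3) ℝ)) ∧
    0 < lambdaOne S ∧ Nonempty (AdmExt S) ∧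
    maxCapacity S < ((√(area S / (16 * Real.pi)) : ℝ) : EReal) :=
  ⟨S₀, fun _ => rfl, lambdaOne_pos hom0_φ₀ S₀_eq Kf_φ₀_pos, admExt_exists,
    maxCapacity_lt hom0_φ₀ S₀_eq Kf_φ₀_pos Kf_φ₀_ne⟩

end Pool.Agent.Results.MP_56a1cd_gt.Disproof
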